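import Pool.Agent.H998.LC.Constr

/-!
Coordinates over the rationals of polynomials over a number field.
-/

set_option autoImplicit false

open Polynomial Finset

namespace H998.LC

/-- linear combinations over a finite set -/
theorem Can.lincombF {R : Type*} [CommRing R] {B : Set R} {I : Set R} {ι : Type*} (s : Finset ι)
    (c a : ι → R) (hc : ∀ i ∈ s, c i ∈ B) (ha : ∀ i ∈ s, a i ∈ B ∨ a i ∈ I) (h0 : (0 : R) ∈ B) :
    Can B (2 * s.card) I {∑ i ∈ s, c i * a i} := by
  classical
  induction s using Finset.induction_on with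
  | empty =>
    intro L hL hI
    refine ⟨[], by simp, by simpa using hL, ?_⟩
    intro x hx
    simp at hx
    subst hx
    exact Or.inl h0
  | insert i s hi ih =>
    have h1 := ih (fun j hj => hc j (Finset.mem_insert_of_mem hj))
      (fun j hj => ha j (Finset.mem_insert_of_mem hj))
    have h2 : Can B 1 I {c i * a i} := Can.mul (Or.inl (hc i (Finset.mem_insert_self _ _)))
      (ha i (Finset.mem_insert_self _ _))
    have h3 := h1.union h2
    have h4 : Can B 1 ({∑ i ∈ s, c i * a i} ∪ {c i * a i})
        {c i * a i + (∑ i ∈ s, c i * a i)} :=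
      Can.add (Or.inr (by simp)) (Or.inr (by simp))
    have h5 := h3.trans h4
    rw [Finset.sum_insert hi, Finset.card_insert_of_notMem hi]
    exact h5.le (by omega)

variable {K : Type*} [Field K] [Algebra ℚ K]

/-- apply a linear functional to the coefficients -/
noncomputable def mp (φ : K →ₗ[ℚ] ℚ) (g : K[X]) : ℚ[X] :=
  ∑ i ∈ range (g.natDegree + 1), monomial i (φ (g.coeff i))

theorem coeff_mp (φ : K →ₗ[ℚ] ℚ) (g : K[X]) (i : ℕ) : (mp φ g).coeff i = φ (g.coeff i) := by
  rw [mp, finsetSum_coeff]
  simp only [coeff_monomial]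
  rw [Finset.sum_ite_eq' (range (g.natDegree + 1)) i (fun j => φ (g.coeff j))]
  split_ifs with h
  · rfl
  · rw [Finset.mem_range, not_lt] at h
    rw [coeff_eq_zero_of_natDegree_lt (by omega), map_zero]

theorem mp_add (φ : K →ₗ[ℚ] ℚ) (g h : K[X]) : mp φ (g + h) = mp φ g + mp φ h := by
  ext i
  simp [coeff_mp]

theorem mp_sub (φ : K →ₗ[ℚ] ℚ) (g h : K[X]) : mp φ (g - h) = mp φ g - mp φ h := by
  ext i
  simp [coeff_mp]

theorem mp_C (φ : K →ₗ[ℚ] ℚ) (c : K) : mp φ (C c) = C (φ c) := by
  ext i
  rw [coeff_mp, coeff_C, coeff_C]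
  split_ifs <;> simp

theorem mp_X (φ : K →ₗ[ℚ] ℚ) : mp φ X = C (φ 1) * X := by
  ext i
  rw [coeff_mp, coeff_X, coeff_C_mul, coeff_X]
  split_ifs <;> simp

theorem bilin {ι : Type*} [Fintype ι] (b : Module.Basis ι ℚ K) (φ : K →ₗ[ℚ] ℚ) (u v : K) :
    φ (u * v) = ∑ x : ι × ι, φ (b x.1 * b x.2) * (b.coord x.1 u * b.coord x.2 v) := by
  have hu : u = ∑ i, b.coord i u • b i := by
    simp
  have hv : v = ∑ i, b.coord i v • b i := by
    simp
  conv_lhs => rw [hu, hv]
  rw [Finset.sum_mul_sum, map_sum, Fintype.sum_prod_type]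
  apply Finset.sum_congr rfl
  intro i _
  rw [map_sum]
  apply Finset.sum_congr rfl
  intro j _
  rw [smul_mul_smul_comm, map_smul, smul_eq_mul, mul_comm]

theorem mp_mul {ι : Type*} [Fintype ι] (b : Module.Basis ι ℚ K) (φ : K →ₗ[ℚ] ℚ) (g h : K[X]) :
    mp φ (g * h) = ∑ x : ι × ι, C (φ (b x.1 * b x.2)) * (mp (b.coord x.1) g * mp (b.coord x.2) h) := by
  ext i
  rw [coeff_mp, coeff_mul, map_sum, finsetSum_coeff]
  have step : ∀ x ∈ (Finset.univ : Finset (ι × ι)),
      (C (φ (b x.1 * b x.2)) * (mp (b.coord x.1) g * mp (b.coord x.2) h)).coeff i =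
      ∑ p ∈ antidiagonal i, φ (b x.1 * b x.2) * (b.coord x.1 (g.coeff p.1) *
        b.coord x.2 (h.coeff p.2)) := by
    intro x _
    rw [coeff_C_mul, coeff_mul, Finset.mul_sum]
    simp only [coeff_mp]
  rw [Finset.sum_congr rfl step, Finset.sum_comm]
  apply Finset.sum_congr rfl
  intro p _
  exact bilin b φ _ _

/-- coordinates of all the computed elements -/
theorem coords {ι : Type*} [Fintype ι] (b : Module.Basis ι ℚ K) {L : List K[X]}
    (hL : Valid (inp K) L) :
    ∃ L' : List ℚ[X], Valid (inp ℚ) L' ∧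
      L'.length ≤ Fintype.card ι + L.length * (3 * Fintype.card ι ^ 3) ∧
      ∀ g, (g ∈ inp K ∨ g ∈ L) → ∀ i, mp (b.coord i) g ∈ inp ℚ ∨ mp (b.coord i) g ∈ L' := by
  classical
  have h0 : (0 : ℚ[X]) ∈ inp ℚ := Or.inr ⟨0, by simp⟩
  by_cases hr : Fintype.card ι = 0
  · have hemp : IsEmpty ι := Fintype.card_eq_zero_iff.1 hr
    exact ⟨[], Valid.nil, by simp, fun g _ i => (hemp.false i).elim⟩
  have hr1 : 1 ≤ Fintype.card ι := Nat.one_le_iff_ne_zero.2 hr
  set r := Fintype.card ι with hrdef
  induction hL with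
  | nil =>
    have hc := Can.many (B := inp ℚ) (T := 1) (I := ∅) (Finset.univ : Finset ι)
      (fun i => {C (b.coord i 1) * X}) (by
        intro i _
        exact Can.mul (Or.inl (C_mem_inp _)) (Or.inl X_mem_inp))
    obtain ⟨L', h1, h2, h3⟩ := hc [] Valid.nil (by simp)
    rw [List.append_nil] at h2 h3
    refine ⟨L', h2, by simpa using h1, ?_⟩
    intro g hg i
    rcases hg with (hg | ⟨c, hg⟩) | hg
    · rw [Set.mem_singleton_iff] at hg
      subst hg
      rw [mp_X]
      apply h3
      simp only [Set.mem_iUnion, exists_prop, Finset.mem_univ, true_and, Set.mem_singleton_iff]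
      exact ⟨i, rfl⟩
    · subst hg
      rw [mp_C]
      exact Or.inl (C_mem_inp _)
    · simp at hg
  | @add L a c _ ha hc ih =>
    obtain ⟨L', h1, h2, h3⟩ := ih
    have hcan := Can.many (B := inp ℚ) (T := 1) (I := {x | x ∈ L'}) (Finset.univ : Finset ι)
      (fun i => {mp (b.coord i) a + mp (b.coord i) c}) (by
        intro i _
        exact Can.add (h3 a ha i) (h3 c hc i))
    obtain ⟨L'', g1, g2, g3⟩ := hcan L' h1 (fun x hx => Or.inr hx)
    refine ⟨L'' ++ L', g2, ?_, ?_⟩
    · rw [List.length_append, List.length_cons]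
      rw [Finset.card_univ, ← hrdef] at g1
      have : r ≤ 3 * r ^ 3 := by
        calc r = r ^ 1 := (pow_one r).symm
          _ ≤ r ^ 3 := Nat.pow_le_pow_right hr1 (by norm_num)
          _ ≤ 3 * r ^ 3 := by omega
      rw [Nat.add_mul]
      omega
    · intro g hg i
      have hcase : g = a + c ∨ (g ∈ inp K ∨ g ∈ L) := by
        rcases hg with hg | hg
        · exact Or.inr (Or.inl hg)
        · rw [List.mem_cons] at hg
          rcases hg with hg | hg
          · exact Or.inl hg
          · exact Or.inr (Or.inr hg)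
      rcases hcase with hg | hg
      · subst hg
        rw [mp_add]
        apply g3
        simp only [Set.mem_iUnion, exists_prop, Finset.mem_univ, true_and, Set.mem_singleton_iff]
        exact ⟨i, rfl⟩
      · rcases h3 g hg i with h | h
        · exact Or.inl h
        · exact Or.inr (List.mem_append_right _ h)
  | @sub L a c _ ha hc ih =>
    obtain ⟨L', h1, h2, h3⟩ := ih
    have hcan := Can.many (B := inp ℚ) (T := 1) (I := {x | x ∈ L'}) (Finset.univ : Finset ι)
      (fun i => {mp (b.coord i) a - mp (b.coord i) c}) (by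
        intro i _
        exact Can.sub (h3 a ha i) (h3 c hc i))
    obtain ⟨L'', g1, g2, g3⟩ := hcan L' h1 (fun x hx => Or.inr hx)
    refine ⟨L'' ++ L', g2, ?_, ?_⟩
    · rw [List.length_append, List.length_cons]
      rw [Finset.card_univ, ← hrdef] at g1
      have : r ≤ 3 * r ^ 3 := by
        calc r = r ^ 1 := (pow_one r).symm
          _ ≤ r ^ 3 := Nat.pow_le_pow_right hr1 (by norm_num)
          _ ≤ 3 * r ^ 3 := by omega
      rw [Nat.add_mul]
      omega
    · intro g hg i
      have hcase : g = a - c ∨ (g ∈ inp K ∨ g ∈ L) := by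
        rcases hg with hg | hg
        · exact Or.inr (Or.inl hg)
        · rw [List.mem_cons] at hg
          rcases hg with hg | hg
          · exact Or.inl hg
          · exact Or.inr (Or.inr hg)
      rcases hcase with hg | hg
      · subst hg
        rw [mp_sub]
        apply g3
        simp only [Set.mem_iUnion, exists_prop, Finset.mem_univ, true_and, Set.mem_singleton_iff]
        exact ⟨i, rfl⟩
      · rcases h3 g hg i with h | h
        · exact Or.inl h
        · exact Or.inr (List.mem_append_right _ h)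
  | @mul L a c _ ha hc ih =>
    obtain ⟨L', h1, h2, h3⟩ := ih
    have hcan1 := Can.many (B := inp ℚ) (T := 1) (I := {x | x ∈ L'}) (Finset.univ : Finset (ι × ι))
      (fun x => {mp (b.coord x.1) a * mp (b.coord x.2) c}) (by
        intro x _
        exact Can.mul (h3 a ha x.1) (h3 c hc x.2))
    have hcan2 := Can.many (B := inp ℚ) (T := 2 * (Finset.univ : Finset (ι × ι)).card)
      (I := ⋃ x ∈ (Finset.univ : Finset (ι × ι)), {mp (b.coord x.1) a * mp (b.coord x.2) c})
      (Finset.univ : Finset ι)
      (fun i => {∑ x : ι × ι, C (b.coord i (b x.1 * b x.2)) *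
        (mp (b.coord x.1) a * mp (b.coord x.2) c)}) (by
        intro i _
        apply Can.lincombF _ (fun x : ι × ι => C (b.coord i (b x.1 * b x.2)))
          (fun x : ι × ι => mp (b.coord x.1) a * mp (b.coord x.2) c)
          (fun x _ => C_mem_inp _) _ h0
        intro x _
        right
        simp only [Set.mem_iUnion, exists_prop, Finset.mem_univ, true_and, Set.mem_singleton_iff]
        exact ⟨x, rfl⟩)
    obtain ⟨L'', g1, g2, g3⟩ := (hcan1.trans hcan2) L' h1 (fun x hx => Or.inr hx)
    refine ⟨L'' ++ L', g2, ?_, ?_⟩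
    · rw [List.length_append, List.length_cons]
      rw [Finset.card_univ, Finset.card_univ, Fintype.card_prod, ← hrdef] at g1
      have : r * r * 1 + r * (2 * (r * r)) ≤ 3 * r ^ 3 := by
        have : r ^ 2 ≤ r ^ 3 := Nat.pow_le_pow_right hr1 (by norm_num)
        nlinarith
      rw [Nat.add_mul]
      omega
    · intro g hg i
      have hcase : g = a * c ∨ (g ∈ inp K ∨ g ∈ L) := by
        rcases hg with hg | hg
        · exact Or.inr (Or.inl hg)
        · rw [List.mem_cons] at hg
          rcases hg with hg | hg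
          · exact Or.inl hg
          · exact Or.inr (Or.inr hg)
      rcases hcase with hg | hg
      · subst hg
        rw [mp_mul b]
        apply g3
        simp only [Set.mem_iUnion, exists_prop, Finset.mem_univ, true_and, Set.mem_singleton_iff]
        exact ⟨i, rfl⟩
      · rcases h3 g hg i with h | h
        · exact Or.inl h
        · exact Or.inr (List.mem_append_right _ h)

end H998.LC
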