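import Pool.Agent.H998.LC.Eq.Unif

/-!
From one number field down to the rationals.
-/

set_option autoImplicit false

open Polynomial

namespace H998.LC

theorem ncard_map_le {K : Type*} [Field K] [Algebra ℚ K] (f : ℚ[X]) (hf : f ≠ 0) (d : ℕ) :
    {p : ℚ[X] | p.Monic ∧ Irreducible p ∧ p ∣ f ∧ p.natDegree ≤ d}.ncard ≤
      {p : K[X] | p.Monic ∧ Irreducible p ∧ p ∣ f.map (algebraMap ℚ K) ∧
        p.natDegree ≤ d}.ncard := by
  classical
  have hex : ∀ p : ℚ[X], ∃ g : K[X], Irreducible p →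
      g.Monic ∧ Irreducible g ∧ g ∣ p.map (algebraMap ℚ K) := by
    intro p
    by_cases hp : Irreducible p
    · have hnu : ¬ IsUnit (p.map (algebraMap ℚ K)) := by
        intro hu
        have h1 := natDegree_eq_zero_of_isUnit hu
        rw [natDegree_map] at h1
        have := hp.natDegree_pos
        omega
      have hne : p.map (algebraMap ℚ K) ≠ 0 := by
        rw [Ne, Polynomial.map_eq_zero]
        exact hp.ne_zero
      obtain ⟨g, hg, hgd⟩ := WfDvdMonoid.exists_irreducible_factor hnu hne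
      exact ⟨normalize g, fun _ => ⟨monic_normalize hg.ne_zero,
        (normalize_associated g).symm.irreducible hg, (normalize_associated g).dvd.trans hgd⟩⟩
    · exact ⟨0, fun h => absurd h hp⟩
  choose g hg using hex
  have hfm : f.map (algebraMap ℚ K) ≠ 0 := by
    rw [Ne, Polynomial.map_eq_zero]
    exact hf
  apply Set.ncard_le_ncard_of_injOn g _ _ (finite_factors _ hfm d)
  · rintro p ⟨_, h2, h3, h4⟩
    obtain ⟨g1, g2, g3⟩ := hg p h2
    refine ⟨g1, g2, g3.trans (Polynomial.map_dvd _ h3), ?_⟩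
    have h5 : (g p).natDegree ≤ (p.map (algebraMap ℚ K)).natDegree :=
      natDegree_le_of_dvd g3 (by
        rw [Ne, Polynomial.map_eq_zero]
        exact h2.ne_zero)
    rw [natDegree_map] at h5
    exact h5.trans h4
  · rintro p ⟨p1, p2, _, _⟩ q ⟨q1, q2, _, _⟩ hpq
    by_contra hne
    have hcop := (coprime_of_ne p1 p2 q1 q2 hne).map (mapRingHom (algebraMap ℚ K))
    obtain ⟨_, g2, g3⟩ := hg p p2
    obtain ⟨_, _, g3'⟩ := hg q q2
    rw [← hpq] at g3'
    exact g2.not_isUnit (hcop.isUnit_of_dvd' g3 g3')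

theorem free_map {K : Type*} [Field K] [Algebra ℚ K] {n : ℕ} {f : ℚ[X]} (h : FreeCirc ℚ n f) :
    FreeCirc K n (f.map (algebraMap ℚ K)) := by
  obtain ⟨g, h1, h2⟩ := h
  have conv : ∀ (m : ℕ) (a : ℚ[X]), (a = X ∨ (∃ c : ℚ, a = C c) ∨ ∃ j, j < m ∧ a = g j) →
      (a.map (algebraMap ℚ K) = X ∨ (∃ c : K, a.map (algebraMap ℚ K) = C c) ∨
        ∃ j, j < m ∧ a.map (algebraMap ℚ K) = (g j).map (algebraMap ℚ K)) := by
    intro m a ha
    rcases ha with ha | ⟨c, ha⟩ | ⟨j, hj, ha⟩
    · left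
      rw [ha, map_X]
    · right; left
      refine ⟨algebraMap ℚ K c, ?_⟩
      rw [ha, map_C]
    · right; right
      exact ⟨j, hj, by rw [ha]⟩
  refine ⟨fun i => (g i).map (algebraMap ℚ K), ?_, conv n f h2⟩
  intro i hi
  obtain ⟨a, b, ha, hb, hg⟩ := h1 i hi
  refine ⟨a.map (algebraMap ℚ K), b.map (algebraMap ℚ K), conv i a ha, conv i b hb, ?_⟩
  rcases hg with hg | hg | hg
  · left
    show (g i).map (algebraMap ℚ K) = _
    rw [hg, Polynomial.map_add]
  · right; left
    show (g i).map (algebraMap ℚ K) = _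
    rw [hg, Polynomial.map_sub]
  · right; right
    show (g i).map (algebraMap ℚ K) = _
    rw [hg, Polynomial.map_mul]

end H998.LC
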