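import Pool.Agent.H998.LC.Eq.NormP

/-!
Low degree factors over a number field and over the rationals.
-/

set_option autoImplicit false

open Polynomial Finset

namespace H998.LC

theorem coprime_of_ne {K : Type*} [Field K] {p q : K[X]} (hp : p.Monic) (hpi : Irreducible p)
    (hq : q.Monic) (hqi : Irreducible q) (hne : p ≠ q) : IsCoprime p q := by
  rcases hpi.isCoprime_or_dvd q with h | h
  · exact h
  · exact absurd (eq_of_monic_of_associated hp hq (hpi.associated_of_dvd hqi h)) hne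

theorem card_le_natDegree {K : Type*} [Field K] (g : K[X]) (hg : g ≠ 0) (S : Finset K[X])
    (hS : ∀ p ∈ S, p.Monic ∧ Irreducible p ∧ p ∣ g) : S.card ≤ g.natDegree := by
  classical
  have h1 : ∏ p ∈ S, p ∣ g := by
    apply Finset.prod_dvd_of_coprime
    · intro p hp q hq hne
      exact coprime_of_ne (hS p hp).1 (hS p hp).2.1 (hS q hq).1 (hS q hq).2.1 hne
    · intro p hp
      exact (hS p hp).2.2
  have h2 := natDegree_le_of_dvd h1 hg
  rw [natDegree_prod _ _ (fun p hp => (hS p hp).2.1.ne_zero)] at h2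
  refine le_trans ?_ h2
  rw [Finset.card_eq_sum_ones]
  apply Finset.sum_le_sum
  intro p hp
  exact (hS p hp).2.1.natDegree_pos

variable {K : Type*} [Field K] [NumberField K]

theorem key (σ0 : K →ₐ[ℚ] ℂ) (p : K[X]) (hp : Irreducible p) :
    ∃ P : ℚ[X], P.Monic ∧ Irreducible P ∧ P.natDegree ≤ Module.finrank ℚ K * p.natDegree ∧
      p ∣ P.map (algebraMap ℚ K) ∧
      ∀ (A : K[X]) (F : ℚ[X]), p ∣ A → F.map (algebraMap ℚ ℂ) = ∏ σ : K →ₐ[ℚ] ℂ, cj A σ →
        P ∣ F := by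
  have hdeg : (p.map (σ0 : K →+* ℂ)).degree ≠ 0 := by
    rw [degree_map]
    intro h
    exact hp.not_isUnit (isUnit_iff_degree_eq_zero.2 h)
  obtain ⟨z, hz⟩ := IsAlgClosed.exists_root _ hdeg
  have hroot : ∀ (A : K[X]) (F : ℚ[X]), p ∣ A →
      F.map (algebraMap ℚ ℂ) = ∏ σ : K →ₐ[ℚ] ℂ, cj A σ → aeval z F = 0 := by
    intro A F hpA hF
    rw [aeval_def, eval₂_eq_eval_map, hF, eval_prod]
    apply Finset.prod_eq_zero (Finset.mem_univ σ0)
    rw [cj]
    have h1 : p.map (σ0 : K →+* ℂ) ∣ A.map (σ0 : K →+* ℂ) := Polynomial.map_dvd _ hpA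
    exact (hz.dvd h1)
  obtain ⟨Fp, hFp, _⟩ := norm_poly p
  have hFp0 : Fp ≠ 0 := by
    intro h
    rw [h, Polynomial.map_zero] at hFp
    have h2 := Finset.prod_eq_zero_iff.1 hFp.symm
    obtain ⟨σ, _, h3⟩ := h2
    rw [cj, Polynomial.map_eq_zero] at h3
    exact hp.ne_zero h3
  have hzint : IsIntegral ℚ z := by
    have : IsAlgebraic ℚ z := ⟨Fp, hFp0, hroot p Fp dvd_rfl hFp⟩
    exact this.isIntegral
  refine ⟨minpoly ℚ z, minpoly.monic hzint, minpoly.irreducible hzint, ?_, ?_, ?_⟩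
  · have h1 : minpoly ℚ z ∣ Fp := minpoly.dvd ℚ z (hroot p Fp dvd_rfl hFp)
    refine (natDegree_le_of_dvd h1 hFp0).trans ?_
    have h2 : (Fp.map (algebraMap ℚ ℂ)).natDegree = Fp.natDegree := natDegree_map _
    rw [← h2, hFp, natDegree_prod _ _ (by
      intro σ _ h3
      rw [cj, Polynomial.map_eq_zero] at h3
      exact hp.ne_zero h3)]
    simp only [cj, natDegree_map]
    rw [Finset.sum_const, Finset.card_univ, AlgHom.card ℚ K ℂ, smul_eq_mul]
  · rcases hp.isCoprime_or_dvd ((minpoly ℚ z).map (algebraMap ℚ K)) with h | h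
    · exfalso
      obtain ⟨u, v, huv⟩ := h
      have h1 := congrArg (fun g => (g.map (σ0 : K →+* ℂ)).eval z) huv
      simp only [Polynomial.map_add, Polynomial.map_mul, Polynomial.map_one, eval_add, eval_mul,
        eval_one] at h1
      have h2 : (p.map (σ0 : K →+* ℂ)).eval z = 0 := hz
      have h3 : (((minpoly ℚ z).map (algebraMap ℚ K)).map (σ0 : K →+* ℂ)).eval z = 0 := by
        rw [Polynomial.map_map]
        have : (σ0 : K →+* ℂ).comp (algebraMap ℚ K) = algebraMap ℚ ℂ := by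
          ext x
          simp
        rw [this, ← eval₂_eq_eval_map, ← aeval_def, minpoly.aeval]
      rw [h2, h3, mul_zero, mul_zero, add_zero] at h1
      exact zero_ne_one h1
    · exact h
  · intro A F hpA hF
    exact minpoly.dvd ℚ z (hroot A F hpA hF)

theorem count_norm (f A : K[X]) (hf : f ≠ 0) (hA : A ≠ 0) (hfA : f ∣ A) (F : ℚ[X])
    (hF : F.map (algebraMap ℚ ℂ) = ∏ σ : K →ₐ[ℚ] ℂ, cj A σ) (d : ℕ) :
    F ≠ 0 ∧ {p : K[X] | p.Monic ∧ Irreducible p ∧ p ∣ f ∧ p.natDegree ≤ d}.ncard ≤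
      (Module.finrank ℚ K * d) * {P : ℚ[X] | P.Monic ∧ Irreducible P ∧ P ∣ F ∧
        P.natDegree ≤ Module.finrank ℚ K * d}.ncard := by
  classical
  have hF0 : F ≠ 0 := by
    intro h
    rw [h, Polynomial.map_zero] at hF
    obtain ⟨σ, _, h3⟩ := Finset.prod_eq_zero_iff.1 hF.symm
    rw [cj, Polynomial.map_eq_zero] at h3
    exact hA h3
  refine ⟨hF0, ?_⟩
  have σ0 : K →ₐ[ℚ] ℂ := IsAlgClosed.lift
  have hex : ∀ p : K[X], ∃ P : ℚ[X], Irreducible p → (P.Monic ∧ Irreducible P ∧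
      P.natDegree ≤ Module.finrank ℚ K * p.natDegree ∧ p ∣ P.map (algebraMap ℚ K) ∧
      ∀ (A : K[X]) (F : ℚ[X]), p ∣ A → F.map (algebraMap ℚ ℂ) = ∏ σ : K →ₐ[ℚ] ℂ, cj A σ →
        P ∣ F) := by
    intro p
    by_cases h : Irreducible p
    · obtain ⟨P, hP⟩ := key σ0 p h
      exact ⟨P, fun _ => hP⟩
    · exact ⟨0, fun h' => absurd h' h⟩
  choose φ hφ using hex
  set S := (finite_factors f hf d).toFinset with hS
  set T := (finite_factors F hF0 (Module.finrank ℚ K * d)).toFinset with hT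
  have h1 : {p : K[X] | p.Monic ∧ Irreducible p ∧ p ∣ f ∧ p.natDegree ≤ d}.ncard = S.card := by
    rw [hS, Set.ncard_eq_toFinset_card _ (finite_factors f hf d)]
  have h2 : {P : ℚ[X] | P.Monic ∧ Irreducible P ∧ P ∣ F ∧
      P.natDegree ≤ Module.finrank ℚ K * d}.ncard = T.card := by
    rw [hT, Set.ncard_eq_toFinset_card _ (finite_factors F hF0 _)]
  rw [h1, h2]
  have hmaps : S.image φ ⊆ T := by
    intro P hP
    rw [Finset.mem_image] at hP
    obtain ⟨p, hp, rfl⟩ := hP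
    rw [hS, Set.Finite.mem_toFinset] at hp
    rw [hT, Set.Finite.mem_toFinset]
    obtain ⟨g1, g2, g3, g4, g5⟩ := hφ p hp.2.1
    exact ⟨g1, g2, g5 A F (hp.2.2.1.trans hfA) hF, g3.trans (Nat.mul_le_mul_left _ hp.2.2.2)⟩
  have hfib : ∀ P ∈ S.image φ, (S.filter (fun p => φ p = P)).card ≤ Module.finrank ℚ K * d := by
    intro P hP
    have hPT := hmaps hP
    rw [hT, Set.Finite.mem_toFinset] at hPT
    have hP0 : P.map (algebraMap ℚ K) ≠ 0 := by
      rw [Ne, Polynomial.map_eq_zero]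
      exact hPT.2.1.ne_zero
    refine (card_le_natDegree _ hP0 _ ?_).trans ?_
    · intro p hp
      rw [Finset.mem_filter, hS, Set.Finite.mem_toFinset] at hp
      refine ⟨hp.1.1, hp.1.2.1, ?_⟩
      rw [← hp.2]
      exact (hφ p hp.1.2.1).2.2.2.1
    · rw [natDegree_map]
      exact hPT.2.2.2
  calc S.card ≤ (Module.finrank ℚ K * d) * (S.image φ).card :=
        Finset.card_le_mul_card_image S _ hfib
    _ ≤ _ := Nat.mul_le_mul_left _ (Finset.card_le_card hmaps)

end H998.LC
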