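import Pool.Agent.H998.LC.Eq.Coord

/-!
The norm of a polynomial over a number field, computed with polynomially many operations.
-/

set_option autoImplicit false

open Polynomial Finset

namespace H998.LC

variable {K : Type*} [Field K] [NumberField K]

/-- conjugates -/
noncomputable def cj (A : K[X]) (σ : K →ₐ[ℚ] ℂ) : ℂ[X] := A.map (σ : K →+* ℂ)

theorem psum_map (A : K[X]) (k : ℕ) :
    (mp (Algebra.trace ℚ K) (A ^ k)).map (algebraMap ℚ ℂ) = ∑ σ : K →ₐ[ℚ] ℂ, (cj A σ) ^ k := by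
  ext i
  rw [coeff_map, coeff_mp, finsetSum_coeff, trace_eq_sum_embeddings ℂ]
  apply Finset.sum_congr rfl
  intro σ _
  rw [cj, ← Polynomial.map_pow, coeff_map]
  rfl

/-- the power sums -/
noncomputable def ps (A : K[X]) (j : ℕ) : ℚ[X] := mp (Algebra.trace ℚ K) (A ^ j)

theorem newton (A : K[X]) (k : ℕ) :
    (k : ℂ[X]) * MvPolynomial.aeval (fun σ => cj A σ) (MvPolynomial.esymm (K →ₐ[ℚ] ℂ) ℚ k) =
      (-1) ^ (k + 1) * ∑ a ∈ antidiagonal k with a.1 < k, (-1) ^ a.1 *
        MvPolynomial.aeval (fun σ => cj A σ) (MvPolynomial.esymm (K →ₐ[ℚ] ℂ) ℚ a.1) *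
        (ps A a.2).map (algebraMap ℚ ℂ) := by
  have h := congrArg (MvPolynomial.aeval (fun σ => cj A σ))
    (MvPolynomial.mul_esymm_eq_sum (K →ₐ[ℚ] ℂ) ℚ k)
  simp only [map_mul, map_natCast, map_pow, map_neg, map_one, map_sum] at h
  rw [h]
  congr 1
  apply Finset.sum_congr rfl
  intro a _
  congr 1
  rw [ps, psum_map, MvPolynomial.psum, map_sum]
  simp

theorem exists_esymm (A : K[X]) (k : ℕ) :
    ∃ E : ℚ[X], E.map (algebraMap ℚ ℂ) =
      MvPolynomial.aeval (fun σ => cj A σ) (MvPolynomial.esymm (K →ₐ[ℚ] ℂ) ℚ k) := by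
  induction k using Nat.strong_induction_on with
  | _ k ih =>
    rcases Nat.eq_zero_or_pos k with hk | hk
    · subst hk
      refine ⟨1, ?_⟩
      rw [MvPolynomial.esymm_zero, map_one, Polynomial.map_one]
    · have hex : ∀ i, ∃ E : ℚ[X], i < k → E.map (algebraMap ℚ ℂ) =
          MvPolynomial.aeval (fun σ => cj A σ) (MvPolynomial.esymm (K →ₐ[ℚ] ℂ) ℚ i) := by
        intro i
        by_cases hi : i < k
        · obtain ⟨E, hE⟩ := ih i hi
          exact ⟨E, fun _ => hE⟩
        · exact ⟨0, fun h => absurd h hi⟩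
      choose E hE using hex
      refine ⟨C ((k : ℚ)⁻¹) * ((-1) ^ (k + 1) * ∑ a ∈ antidiagonal k with a.1 < k,
        (-1) ^ a.1 * E a.1 * ps A a.2), ?_⟩
      have hkc : (k : ℂ[X]) ≠ 0 := by
        exact_mod_cast Nat.pos_iff_ne_zero.1 hk
      apply mul_left_cancel₀ hkc
      rw [newton]
      rw [Polynomial.map_mul, map_C, ← mul_assoc]
      have h1 : (k : ℂ[X]) * C (algebraMap ℚ ℂ (k : ℚ)⁻¹) = 1 := by
        rw [map_inv₀, map_natCast, ← C_eq_natCast, ← C_mul, mul_inv_cancel₀, C_1]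
        exact_mod_cast Nat.pos_iff_ne_zero.1 hk
      rw [h1, one_mul, Polynomial.map_mul, Polynomial.map_pow, Polynomial.map_neg,
        Polynomial.map_one, Polynomial.map_sum]
      congr 1
      apply Finset.sum_congr rfl
      intro a ha
      rw [Finset.mem_filter] at ha
      rw [Polynomial.map_mul, Polynomial.map_mul, Polynomial.map_pow, Polynomial.map_neg,
        Polynomial.map_one, hE _ ha.2]

/-- the norm -/
theorem norm_poly (A : K[X]) :
    ∃ F : ℚ[X], F.map (algebraMap ℚ ℂ) = ∏ σ : K →ₐ[ℚ] ℂ, cj A σ ∧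
      Can (inp ℚ) (3 * Module.finrank ℚ K ^ 2)
        {x | ∃ j, 1 ≤ j ∧ j ≤ Module.finrank ℚ K ∧ x = ps A j} {F} := by
  classical
  set r := Module.finrank ℚ K with hr
  have hcard : Fintype.card (K →ₐ[ℚ] ℂ) = r := AlgHom.card ℚ K ℂ
  choose e he using exists_esymm A
  have hinj : Function.Injective (Polynomial.map (algebraMap ℚ ℂ)) :=
    Polynomial.map_injective _ (algebraMap ℚ ℂ).injective
  have hrec : ∀ k, 1 ≤ k → e k = ∑ a ∈ antidiagonal k with a.1 < k,
      C ((k : ℚ)⁻¹ * (-1) ^ (k + 1) * (-1) ^ a.1) * (e a.1 * ps A a.2) := by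
    intro k hk
    apply hinj
    have hkc : (k : ℂ[X]) ≠ 0 := by
      exact_mod_cast Nat.pos_iff_ne_zero.1 hk
    apply mul_left_cancel₀ hkc
    rw [he, newton, Polynomial.map_sum, Finset.mul_sum, Finset.mul_sum]
    apply Finset.sum_congr rfl
    intro a _
    rw [Polynomial.map_mul, Polynomial.map_mul, map_C, he]
    have h1 : (k : ℂ[X]) * C (algebraMap ℚ ℂ (k : ℚ)⁻¹) = 1 := by
      rw [map_inv₀, map_natCast, ← C_eq_natCast, ← C_mul, mul_inv_cancel₀, C_1]
      exact_mod_cast Nat.pos_iff_ne_zero.1 hk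
    have hC : C (algebraMap ℚ ℂ ((k : ℚ)⁻¹ * (-1) ^ (k + 1) * (-1) ^ a.1)) =
        C (algebraMap ℚ ℂ (k : ℚ)⁻¹) * (-1) ^ (k + 1) * (-1) ^ a.1 := by
      simp only [map_mul, map_pow, map_neg, map_one]
    rw [hC]
    calc (-1) ^ (k + 1) * ((-1) ^ a.1 *
          MvPolynomial.aeval (fun σ => cj A σ) (MvPolynomial.esymm (K →ₐ[ℚ] ℂ) ℚ a.1) *
          (ps A a.2).map (algebraMap ℚ ℂ))
        = 1 * ((-1) ^ (k + 1) * ((-1) ^ a.1 *
          MvPolynomial.aeval (fun σ => cj A σ) (MvPolynomial.esymm (K →ₐ[ℚ] ℂ) ℚ a.1) *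
          (ps A a.2).map (algebraMap ℚ ℂ))) := by rw [one_mul]
      _ = _ := by rw [← h1]; ring
  have he0 : e 0 = 1 := by
    apply hinj
    rw [he, MvPolynomial.esymm_zero, map_one, Polynomial.map_one]
  have hcan : ∀ k, k ≤ r → Can (inp ℚ) (k * (3 * r))
      {x | ∃ j, 1 ≤ j ∧ j ≤ r ∧ x = ps A j} {x | ∃ i, i ≤ k ∧ x = e i} := by
    intro k
    induction k with
    | zero =>
      intro _ L hL hI
      refine ⟨[], by simp, by simpa using hL, ?_⟩
      rintro x ⟨i, hi, rfl⟩
      have : i = 0 := by omega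
      subst this
      rw [he0]
      exact Or.inl one_mem_inp
    | succ k ih =>
      intro hk
      have h1 := ih (by omega)
      set I0 : Set ℚ[X] := {x | ∃ j, 1 ≤ j ∧ j ≤ r ∧ x = ps A j} with hI0
      set s := (antidiagonal (k + 1)).filter (fun a => a.1 < k + 1) with hs
      have hscard : s.card ≤ k + 1 := by
        have := Finset.card_le_card_of_injOn (s := s) (t := range (k + 1)) Prod.fst (by
          intro a ha
          rw [Finset.mem_coe, hs, Finset.mem_filter] at ha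
          rw [Finset.mem_coe, Finset.mem_range]
          exact ha.2) (by
          intro a ha a' ha' h
          rw [Finset.mem_coe, hs, Finset.mem_filter, HasAntidiagonal.mem_antidiagonal] at ha ha'
          have h' : a.1 = a'.1 := h
          exact Prod.ext h' (by omega))
        rwa [Finset.card_range] at this
      have h2 := Can.many (B := inp ℚ) (T := 1) (I := I0 ∪ {x | ∃ i, i ≤ k ∧ x = e i}) s
        (fun a => {e a.1 * ps A a.2}) (by
          intro a ha
          rw [hs, Finset.mem_filter, HasAntidiagonal.mem_antidiagonal] at ha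
          apply Can.mul
          · right; right
            exact ⟨a.1, by omega, rfl⟩
          · right; left
            exact ⟨a.2, by omega, by omega, rfl⟩)
      have h3 : Can (inp ℚ) (2 * s.card) (⋃ a ∈ s, {e a.1 * ps A a.2}) {e (k + 1)} := by
        rw [hrec (k + 1) (by omega)]
        apply Can.lincombF s (fun a => C ((((k + 1 : ℕ) : ℚ))⁻¹ * (-1) ^ (k + 1 + 1) * (-1) ^ a.1))
          (fun a => e a.1 * ps A a.2) (fun a _ => C_mem_inp _) _ (Or.inr ⟨0, by simp⟩)
        intro a ha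
        right
        simp only [Set.mem_iUnion, exists_prop, Set.mem_singleton_iff]
        exact ⟨a, ha, rfl⟩
      refine (h1.comp (h2.trans h3)).mono ?_ subset_rfl ?_
      · nlinarith
      · rintro x ⟨i, hi, rfl⟩
        rcases Nat.lt_or_ge k i with h | h
        · have : i = k + 1 := by omega
          subst this
          right
          rfl
        · left
          exact ⟨i, h, rfl⟩
  refine ⟨e r, ?_, ?_⟩
  · rw [he, MvPolynomial.esymm, ← hcard, ← Finset.card_univ, Finset.powersetCard_self,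
      Finset.sum_singleton, map_prod]
    simp
  · refine (hcan r le_rfl).mono ?_ subset_rfl ?_
    · apply le_of_eq
      ring
    · rintro x hx
      rw [Set.mem_singleton_iff] at hx
      exact ⟨r, le_rfl, hx⟩

theorem mp_functional {ι : Type*} [Fintype ι] (b : Module.Basis ι ℚ K) (φ : K →ₗ[ℚ] ℚ) (g : K[X]) :
    mp φ g = ∑ i : ι, C (φ (b i)) * mp (b.coord i) g := by
  ext j
  rw [coeff_mp, finsetSum_coeff]
  simp only [coeff_C_mul, coeff_mp]
  conv_lhs => rw [← b.sum_repr (g.coeff j), map_sum]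
  apply Finset.sum_congr rfl
  intro i _
  rw [map_smul, smul_eq_mul, mul_comm]
  rfl

theorem norm_cost {L : List K[X]} (hL : Valid (inp K) L) (A : K[X]) (hA : A ∈ inp K ∨ A ∈ L) :
    ∃ (L' : List ℚ[X]) (F : ℚ[X]), Valid (inp ℚ) L' ∧ (F ∈ inp ℚ ∨ F ∈ L') ∧
      F.map (algebraMap ℚ ℂ) = ∏ σ : K →ₐ[ℚ] ℂ, cj A σ ∧
      L'.length ≤ Module.finrank ℚ K + (L.length + Module.finrank ℚ K) *
        (3 * Module.finrank ℚ K ^ 3) + 5 * Module.finrank ℚ K ^ 2 := by
  classical
  set r := Module.finrank ℚ K with hr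
  obtain ⟨F, hF, hcan⟩ := norm_poly A
  rw [← hr] at hcan
  -- powers
  have hp : Can (inp K) r {x | x ∈ L} ((fun i : ℕ => A ^ i) '' {i | i ≤ r}) :=
    Can.powers r A (by
      rcases hA with h | h
      · exact Or.inl h
      · exact Or.inr h) one_mem_inp
  obtain ⟨L1, a1, a2, a3⟩ := hp L hL (fun x hx => Or.inr hx)
  let b := Module.finBasis ℚ K
  obtain ⟨L2, b1, b2, b3⟩ := coords b a2
  rw [Fintype.card_fin, ← hr] at b2
  -- power sums
  have ht := Can.many (B := inp ℚ) (T := 2 * r) (I := {x | x ∈ L2}) (range r)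
    (fun j => {ps A (j + 1)}) (by
      intro j hj
      rw [Finset.mem_range] at hj
      rw [ps, mp_functional b]
      have := Can.lincombF (B := inp ℚ) (I := {x | x ∈ L2}) (Finset.univ : Finset (Fin (Module.finrank ℚ K)))
        (fun i => C (Algebra.trace ℚ K (b i))) (fun i => mp (b.coord i) (A ^ (j + 1)))
        (fun i _ => C_mem_inp _) (by
          intro i _
          exact b3 _ (a3 _ ⟨j + 1, by simp only [Set.mem_ofPred_eq]; omega, rfl⟩) i)
        (Or.inr ⟨0, by simp⟩)
      exact this.le (le_of_eq (by rw [Finset.card_univ, Fintype.card_fin])))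
  have hcan' : Can (inp ℚ) (3 * r ^ 2) (⋃ j ∈ range r, {ps A (j + 1)}) {F} := by
    refine hcan.mono le_rfl ?_ subset_rfl
    rintro x ⟨j, hj1, hj2, rfl⟩
    simp only [Set.mem_iUnion, exists_prop, Set.mem_singleton_iff]
    refine ⟨j - 1, Finset.mem_range.2 (by omega), ?_⟩
    rw [Nat.sub_add_cancel hj1]
  obtain ⟨L3, c1, c2, c3⟩ := (ht.trans hcan') L2 b1 (fun x hx => Or.inr hx)
  refine ⟨L3 ++ L2, F, c2, c3 F rfl, hF, ?_⟩
  rw [List.length_append]
  rw [List.length_append] at b2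
  rw [Finset.card_range] at c1
  have h1 : (L1.length + L.length) * (3 * r ^ 3) ≤ (L.length + r) * (3 * r ^ 3) :=
    Nat.mul_le_mul_right _ (by omega)
  have h2 : r * (2 * r) + 3 * r ^ 2 = 5 * r ^ 2 := by ring
  omega

end H998.LC
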