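import Pool.Agent.H998.LC.Conv

/-!
Elimination of divisions: numerator and denominator pairs.
-/

set_option autoImplicit false

open Polynomial

namespace H998.LC

/-- circuits with divisions -/
def DivCirc (K : Type*) [Field K] (n : ℕ) (f : K[X]) : Prop :=
  ∃ g : ℕ → RatFunc K,
    (∀ i, i < n → ∃ a b : RatFunc K,
      (a = RatFunc.X ∨ (∃ c : K, a = RatFunc.C c) ∨ ∃ j, j < i ∧ a = g j) ∧
      (b = RatFunc.X ∨ (∃ c : K, b = RatFunc.C c) ∨ ∃ j, j < i ∧ b = g j) ∧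
      (g i = a + b ∨ g i = a - b ∨ g i = a * b ∨ g i = a / b)) ∧
    (algebraMap K[X] (RatFunc K) f = RatFunc.X ∨
      (∃ c : K, algebraMap K[X] (RatFunc K) f = RatFunc.C c) ∨
      ∃ j, j < n ∧ algebraMap K[X] (RatFunc K) f = g j)

variable {K : Type*} [Field K]

/-- `h` is represented by a pair -/
def Rep (L : List K[X]) (h : RatFunc K) : Prop :=
  ∃ N D : K[X], (N ∈ inp K ∨ N ∈ L) ∧ (D ∈ inp K ∨ D ∈ L) ∧ D ≠ 0 ∧
    h = algebraMap K[X] (RatFunc K) N / algebraMap K[X] (RatFunc K) D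

theorem Rep.mono {L : List K[X]} (L' : List K[X]) {h : RatFunc K} (hr : Rep L h) :
    Rep (L' ++ L) h := by
  obtain ⟨N, D, h1, h2, h3, h4⟩ := hr
  refine ⟨N, D, ?_, ?_, h3, h4⟩
  · rcases h1 with h | h
    · exact Or.inl h
    · exact Or.inr (List.mem_append_right _ h)
  · rcases h2 with h | h
    · exact Or.inl h
    · exact Or.inr (List.mem_append_right _ h)

theorem Rep.X (L : List K[X]) : Rep L RatFunc.X := by
  refine ⟨Polynomial.X, 1, Or.inl X_mem_inp, Or.inl one_mem_inp, one_ne_zero, ?_⟩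
  rw [map_one, div_one, RatFunc.algebraMap_X]

theorem Rep.C (L : List K[X]) (c : K) : Rep L (RatFunc.C c) := by
  refine ⟨Polynomial.C c, 1, Or.inl (C_mem_inp c), Or.inl one_mem_inp, one_ne_zero, ?_⟩
  rw [map_one, div_one, RatFunc.algebraMap_C]

theorem alg_ne {D : K[X]} (h : D ≠ 0) : algebraMap K[X] (RatFunc K) D ≠ 0 := by
  exact (map_ne_zero_iff _ (RatFunc.algebraMap_injective K)).2 h

/-- extend a program by at most four steps -/
theorem ext4 {L : List K[X]} (hL : Valid (inp K) L) {N1 D1 N2 D2 : K[X]}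
    (h1 : N1 ∈ inp K ∨ N1 ∈ L) (h2 : D1 ∈ inp K ∨ D1 ∈ L) (h3 : N2 ∈ inp K ∨ N2 ∈ L)
    (h4 : D2 ∈ inp K ∨ D2 ∈ L) :
    (∃ L', L'.length ≤ 4 ∧ Valid (inp K) (L' ++ L) ∧ (N1 * D2 + N2 * D1) ∈ L' ++ L ∧
      D1 * D2 ∈ L' ++ L) ∧
    (∃ L', L'.length ≤ 4 ∧ Valid (inp K) (L' ++ L) ∧ (N1 * D2 - N2 * D1) ∈ L' ++ L ∧
      D1 * D2 ∈ L' ++ L) ∧
    (∃ L', L'.length ≤ 4 ∧ Valid (inp K) (L' ++ L) ∧ (N1 * N2) ∈ L' ++ L ∧
      D1 * D2 ∈ L' ++ L) ∧
    (∃ L', L'.length ≤ 4 ∧ Valid (inp K) (L' ++ L) ∧ (N1 * D2) ∈ L' ++ L ∧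
      D1 * N2 ∈ L' ++ L) := by
  have up : ∀ {x y : K[X]} {M : List K[X]}, (x ∈ inp K ∨ x ∈ M) → (x ∈ inp K ∨ x ∈ y :: M) := by
    intro x y M h
    rcases h with h | h
    · exact Or.inl h
    · exact Or.inr (List.mem_cons_of_mem _ h)
  refine ⟨⟨[N1 * D2 + N2 * D1, D1 * D2, N2 * D1, N1 * D2], by simp, ?_, by simp, by simp⟩,
    ⟨[N1 * D2 - N2 * D1, D1 * D2, N2 * D1, N1 * D2], by simp, ?_, by simp, by simp⟩,
    ⟨[N1 * N2, D1 * D2], by simp, ?_, by simp, by simp⟩,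
    ⟨[N1 * D2, D1 * N2], by simp, ?_, by simp, by simp⟩⟩
  · show Valid (inp K) ((N1 * D2 + N2 * D1) :: (D1 * D2) :: (N2 * D1) :: (N1 * D2) :: L)
    exact Valid.add (Valid.mul (Valid.mul (Valid.mul hL h1 h4) (up h3) (up h2)) (up (up h2))
      (up (up h4))) (Or.inr (by simp)) (Or.inr (by simp))
  · show Valid (inp K) ((N1 * D2 - N2 * D1) :: (D1 * D2) :: (N2 * D1) :: (N1 * D2) :: L)
    exact Valid.sub (Valid.mul (Valid.mul (Valid.mul hL h1 h4) (up h3) (up h2)) (up (up h2))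
      (up (up h4))) (Or.inr (by simp)) (Or.inr (by simp))
  · show Valid (inp K) ((N1 * N2) :: (D1 * D2) :: L)
    exact Valid.mul (Valid.mul hL h2 h4) (up h1) (up h3)
  · show Valid (inp K) ((N1 * D2) :: (D1 * N2) :: L)
    exact Valid.mul (Valid.mul hL h2 h3) (up h1) (up h4)

theorem rep_op {L : List K[X]} (hL : Valid (inp K) L) {a b h : RatFunc K} (ha : Rep L a)
    (hb : Rep L b) (hh : h = a + b ∨ h = a - b ∨ h = a * b ∨ h = a / b) :
    ∃ L', L'.length ≤ 4 ∧ Valid (inp K) (L' ++ L) ∧ Rep (L' ++ L) h := by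
  obtain ⟨N1, D1, n1, d1, z1, rfl⟩ := ha
  obtain ⟨N2, D2, n2, d2, z2, rfl⟩ := hb
  obtain ⟨e1, e2, e3, e4⟩ := ext4 hL n1 d1 n2 d2
  have y1 := alg_ne z1
  have y2 := alg_ne z2
  rcases hh with hh | hh | hh | hh
  · obtain ⟨L', a1, a2, a3, a4⟩ := e1
    refine ⟨L', a1, a2, _, _, Or.inr a3, Or.inr a4, mul_ne_zero z1 z2, ?_⟩
    rw [hh, map_add, map_mul, map_mul, map_mul]
    field_simp
  · obtain ⟨L', a1, a2, a3, a4⟩ := e2
    refine ⟨L', a1, a2, _, _, Or.inr a3, Or.inr a4, mul_ne_zero z1 z2, ?_⟩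
    rw [hh, map_sub, map_mul, map_mul, map_mul]
    field_simp
  · obtain ⟨L', a1, a2, a3, a4⟩ := e3
    refine ⟨L', a1, a2, _, _, Or.inr a3, Or.inr a4, mul_ne_zero z1 z2, ?_⟩
    rw [hh, map_mul, map_mul]
    field_simp
  · by_cases hN : N2 = 0
    · refine ⟨[], by simp, by simpa using hL, ?_⟩
      rw [hh, hN, map_zero, zero_div, div_zero]
      have := Rep.C ([] ++ L) (0 : K)
      rwa [map_zero] at this
    · obtain ⟨L', a1, a2, a3, a4⟩ := e4
      have y3 := alg_ne hN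
      refine ⟨L', a1, a2, _, _, Or.inr a3, Or.inr a4, mul_ne_zero z1 hN, ?_⟩
      rw [hh, map_mul, map_mul]
      field_simp

theorem pair {n : ℕ} {f : K[X]} (hf : f ≠ 0) (h : DivCirc K n f) :
    ∃ (L : List K[X]) (A : K[X]), Valid (inp K) L ∧ L.length ≤ 4 * n ∧ (A ∈ inp K ∨ A ∈ L) ∧
      A ≠ 0 ∧ f ∣ A := by
  obtain ⟨g, h1, h2⟩ := h
  have key : ∀ m, m ≤ n → ∃ L : List K[X], Valid (inp K) L ∧ L.length ≤ 4 * m ∧
      ∀ j, j < m → Rep L (g j) := by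
    intro m
    induction m with
    | zero =>
      intro _
      exact ⟨[], Valid.nil, by simp, fun j hj => absurd hj (Nat.not_lt_zero j)⟩
    | succ m ih =>
      intro hm
      obtain ⟨L, hL, hlen, hrep⟩ := ih (by omega)
      obtain ⟨a, b, ha, hb, hg⟩ := h1 m (by omega)
      have conv : ∀ a : RatFunc K, (a = RatFunc.X ∨ (∃ c : K, a = RatFunc.C c) ∨
          ∃ j, j < m ∧ a = g j) → Rep L a := by
        intro a ha
        rcases ha with rfl | ⟨c, rfl⟩ | ⟨j, hj, rfl⟩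
        · exact Rep.X L
        · exact Rep.C L c
        · exact hrep j hj
      obtain ⟨L', a1, a2, a3⟩ := rep_op hL (conv a ha) (conv b hb) hg
      refine ⟨L' ++ L, a2, by rw [List.length_append]; omega, ?_⟩
      intro j hj
      rcases Nat.lt_or_ge j m with hjm | hjm
      · exact (hrep j hjm).mono L'
      · have : j = m := by omega
        subst this
        exact a3
  obtain ⟨L, hL, hlen, hrep⟩ := key n le_rfl
  have hfr : Rep L (algebraMap K[X] (RatFunc K) f) := by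
    rcases h2 with h2 | ⟨c, h2⟩ | ⟨j, hj, h2⟩
    · rw [h2]; exact Rep.X L
    · rw [h2]; exact Rep.C L c
    · rw [h2]; exact hrep j hj
  obtain ⟨N, D, n1, d1, z1, e⟩ := hfr
  have y1 := alg_ne z1
  rw [eq_div_iff y1, ← map_mul] at e
  have e' : f * D = N := RatFunc.algebraMap_injective K e
  refine ⟨L, N, hL, hlen, n1, ?_, ⟨D, e'.symm⟩⟩
  rw [← e']
  exact mul_ne_zero hf z1

end H998.LC
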