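import Pool.Agent.H998.LC.Eq.Pair
import Pool.Agent.H998.LC.Eq.Fib

/-!
The L-conjecture over the rationals is uniform in the number field.
-/

set_option autoImplicit false

open Polynomial

namespace H998.LC

/-- circuits without divisions -/
def FreeCirc (K : Type*) [Field K] (n : ℕ) (f : K[X]) : Prop :=
  ∃ g : ℕ → K[X],
    (∀ i, i < n → ∃ a b : K[X],
      (a = X ∨ (∃ c : K, a = C c) ∨ ∃ j, j < i ∧ a = g j) ∧
      (b = X ∨ (∃ c : K, b = C c) ∨ ∃ j, j < i ∧ b = g j) ∧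
      (g i = a + b ∨ g i = a - b ∨ g i = a * b)) ∧
    (f = X ∨ (∃ c : K, f = C c) ∨ ∃ j, j < n ∧ f = g j)

theorem free_of_valid {K : Type*} [Field K] {L : List K[X]} {f : K[X]} (hL : Valid (inp K) L)
    (hf : f ∈ inp K ∨ f ∈ L) : FreeCirc K L.length f := by
  obtain ⟨g, h1, h2⟩ := valid_fun hL
  have conv : ∀ (a : K[X]) (P : Prop), (a ∈ inp K ∨ P) → (a = X ∨ (∃ c : K, a = C c) ∨ P) := by
    intro a P h
    rcases h with (h | ⟨c, h⟩) | h
    · exact Or.inl h
    · exact Or.inr (Or.inl ⟨c, h.symm⟩)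
    · exact Or.inr (Or.inr h)
  refine ⟨g, ?_, ?_⟩
  · intro i hi
    obtain ⟨a, b, ha, hb, hg⟩ := h1 i hi
    exact ⟨a, b, conv a _ ha, conv b _ hb, hg⟩
  · apply conv
    rcases hf with h | h
    · exact Or.inl h
    · exact Or.inr (h2 f h)

theorem div_of_free {K : Type*} [Field K] {n : ℕ} {f : K[X]} (h : FreeCirc K n f) :
    DivCirc K n f := by
  obtain ⟨g, h1, h2⟩ := h
  have conv : ∀ (m : ℕ) (a : K[X]), (a = X ∨ (∃ c : K, a = C c) ∨ ∃ j, j < m ∧ a = g j) →
      (algebraMap K[X] (RatFunc K) a = RatFunc.X ∨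
        (∃ c : K, algebraMap K[X] (RatFunc K) a = RatFunc.C c) ∨
        ∃ j, j < m ∧ algebraMap K[X] (RatFunc K) a = algebraMap K[X] (RatFunc K) (g j)) := by
    intro m a ha
    rcases ha with ha | ⟨c, ha⟩ | ⟨j, hj, ha⟩
    · left
      rw [ha, RatFunc.algebraMap_X]
    · right; left
      refine ⟨c, ?_⟩
      rw [ha, RatFunc.algebraMap_C]
    · right; right
      exact ⟨j, hj, by rw [ha]⟩
  refine ⟨fun i => algebraMap K[X] (RatFunc K) (g i), ?_, conv n f h2⟩
  intro i hi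
  obtain ⟨a, b, ha, hb, hg⟩ := h1 i hi
  refine ⟨algebraMap K[X] (RatFunc K) a, algebraMap K[X] (RatFunc K) b, conv i a ha,
    conv i b hb, ?_⟩
  rcases hg with hg | hg | hg
  · left
    show algebraMap K[X] (RatFunc K) (g i) = _
    rw [hg, map_add]
  · right; left
    show algebraMap K[X] (RatFunc K) (g i) = _
    rw [hg, map_sub]
  · right; right; left
    show algebraMap K[X] (RatFunc K) (g i) = _
    rw [hg, map_mul]

theorem free_mono {K : Type*} [Field K] {m n : ℕ} {f : K[X]} (h : FreeCirc K m f) (hmn : m ≤ n) :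
    FreeCirc K n f := by
  obtain ⟨g, h1, h2⟩ := h
  refine ⟨fun i => if i < m then g i else X + X, ?_, ?_⟩
  · intro i hi
    by_cases him : i < m
    · obtain ⟨a, b, ha, hb, hg⟩ := h1 i him
      have conv : ∀ a : K[X], (a = X ∨ (∃ c : K, a = C c) ∨ ∃ j, j < i ∧ a = g j) →
          (a = X ∨ (∃ c : K, a = C c) ∨ ∃ j, j < i ∧ a = if j < m then g j else X + X) := by
        intro a ha
        rcases ha with ha | ha | ⟨j, hj, ha⟩
        · exact Or.inl ha
        · exact Or.inr (Or.inl ha)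
        · exact Or.inr (Or.inr ⟨j, hj, by rw [if_pos (by omega)]; exact ha⟩)
      refine ⟨a, b, conv a ha, conv b hb, ?_⟩
      simp only [him, if_true]
      exact hg
    · refine ⟨X, X, Or.inl rfl, Or.inl rfl, Or.inl ?_⟩
      simp only [him, if_false]
  · rcases h2 with h2 | h2 | ⟨j, hj, h2⟩
    · exact Or.inl h2
    · exact Or.inr (Or.inl h2)
    · refine Or.inr (Or.inr ⟨j, by omega, ?_⟩)
      simp only [hj, if_true]
      exact h2

theorem ncard_zero {K : Type*} [Field K] (f : K[X]) :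
    {p : K[X] | p.Monic ∧ Irreducible p ∧ p ∣ f ∧ p.natDegree ≤ 0}.ncard = 0 := by
  have : {p : K[X] | p.Monic ∧ Irreducible p ∧ p ∣ f ∧ p.natDegree ≤ 0} = ∅ := by
    ext p
    simp only [Set.mem_ofPred_eq, Set.mem_empty_iff_false, iff_false, not_and]
    intro _ h2 _ h4
    have := h2.natDegree_pos
    omega
  rw [this, Set.ncard_empty]

theorem uniform (β : ℕ)
    (h : ∀ (d n : ℕ) (f : ℚ[X]), f ≠ 0 → FreeCirc ℚ n f →
      {p : ℚ[X] | p.Monic ∧ Irreducible p ∧ p ∣ f ∧ p.natDegree ≤ d}.ncard ≤ (n + d) ^ β)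
    (K : Type*) [Field K] [NumberField K] (d n : ℕ) (f : K[X]) (hf : f ≠ 0)
    (hc : DivCirc K n f) :
    {p : K[X] | p.Monic ∧ Irreducible p ∧ p ∣ f ∧ p.natDegree ≤ d}.ncard ≤
      (n + d + Module.finrank ℚ K) ^ (9 * β + 2) := by
  rcases Nat.eq_zero_or_pos d with hd | hd
  · subst hd
    rw [ncard_zero]
    exact Nat.zero_le _
  set r := Module.finrank ℚ K with hr
  have hr1 : 1 ≤ r := Module.finrank_pos
  obtain ⟨L, A, hL, hlen, hA, hA0, hfA⟩ := pair hf hc
  obtain ⟨L', F, hL', hF, hFm, hlen'⟩ := norm_cost hL A hA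
  rw [← hr] at hlen'
  obtain ⟨hF0, hcnt⟩ := count_norm f A hf hA0 hfA F hFm d
  rw [← hr] at hcnt
  have h1 := h (r * d) L'.length F hF0 (free_of_valid hL' hF)
  set s := n + d + r with hs
  have hs2 : 2 ≤ s := by omega
  have hsr : r ≤ s := by omega
  have hsd : d ≤ s := by omega
  have h2 : L'.length + r * d ≤ s ^ 9 := by
    have e1 : (L.length + r) * (3 * r ^ 3) ≤ (4 * s) * (3 * s ^ 3) := by
      apply Nat.mul_le_mul
      · omega
      · exact Nat.mul_le_mul_left _ (Nat.pow_le_pow_left hsr 3)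
    have e2 : r ^ 2 ≤ s ^ 2 := Nat.pow_le_pow_left hsr 2
    have e3 : r * d ≤ s * s := Nat.mul_le_mul hsr hsd
    have e4 : s ≤ s ^ 4 := by
      calc s = s ^ 1 := (pow_one s).symm
        _ ≤ s ^ 4 := Nat.pow_le_pow_right (by omega) (by norm_num)
    have e5 : s ^ 2 ≤ s ^ 4 := Nat.pow_le_pow_right (by omega) (by norm_num)
    have e6 : (4 * s) * (3 * s ^ 3) = 12 * s ^ 4 := by ring
    have e7 : s * s = s ^ 2 := by ring
    have e8 : 32 ≤ s ^ 5 := by
      calc 32 = 2 ^ 5 := by norm_num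
        _ ≤ s ^ 5 := Nat.pow_le_pow_left hs2 5
    have e9 : s ^ 9 = s ^ 5 * s ^ 4 := by ring
    rw [e9]
    have e10 : 32 * s ^ 4 ≤ s ^ 5 * s ^ 4 := Nat.mul_le_mul_right _ e8
    omega
  calc {p : K[X] | p.Monic ∧ Irreducible p ∧ p ∣ f ∧ p.natDegree ≤ d}.ncard
      ≤ (r * d) * (L'.length + r * d) ^ β := hcnt.trans (Nat.mul_le_mul_left _ h1)
    _ ≤ (s * s) * (s ^ 9) ^ β := Nat.mul_le_mul (Nat.mul_le_mul hsr hsd)
        (Nat.pow_le_pow_left h2 β)
    _ = s ^ (9 * β + 2) := by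
        rw [← pow_mul, pow_add]
        ring

theorem down (c : ℕ)
    (h : ∀ (d n : ℕ) (f : ℚ[X]), f ≠ 0 → DivCirc ℚ n f →
      {p : ℚ[X] | p.Monic ∧ Irreducible p ∧ p ∣ f ∧ p.natDegree ≤ d}.ncard ≤ (n + d + 1) ^ c)
    (d n : ℕ) (f : ℚ[X]) (hf : f ≠ 0) (hc : DivCirc ℚ n f) :
    {p : ℚ[X] | p.Monic ∧ Irreducible p ∧ p ∣ f ∧ p.natDegree ≤ d}.ncard ≤ (n + d) ^ (2 * c) := by
  rcases Nat.eq_zero_or_pos d with hd | hd
  · subst hd
    rw [ncard_zero]
    exact Nat.zero_le _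
  rcases Nat.lt_or_ge (n + d) 2 with h2 | h2
  · have hn : n = 0 := by omega
    have hd1 : d = 1 := by omega
    subst hn hd1
    obtain ⟨g, _, hg⟩ := hc
    have hdeg : f.natDegree ≤ 1 := by
      rcases hg with hg | ⟨c, hg⟩ | ⟨j, hj, _⟩
      · rw [← RatFunc.algebraMap_X] at hg
        rw [RatFunc.algebraMap_injective ℚ hg]
        exact natDegree_X_le
      · rw [← RatFunc.algebraMap_C] at hg
        rw [RatFunc.algebraMap_injective ℚ hg, natDegree_C]
        exact Nat.zero_le _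
      · exact absurd hj (Nat.not_lt_zero j)
    rw [Set.ncard_eq_toFinset_card _ (finite_factors f hf 1)]
    refine (card_le_natDegree f hf _ ?_).trans ?_
    · intro p hp
      rw [Set.Finite.mem_toFinset] at hp
      exact ⟨hp.1, hp.2.1, hp.2.2.1⟩
    · simpa using hdeg
  · refine (h d n f hf hc).trans ?_
    rw [pow_mul]
    apply Nat.pow_le_pow_left
    nlinarith

end H998.LC
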